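import Pool.Agent.helper88.PF.Spec

/-! # Row pf:BTM -/

set_option autoImplicit false

namespace PF

theorem BTM (hACL : ACL_stmt) : BTM_stmt := by
  intro Γ π
  induction π with
  | one α K =>
    intro M M' h hT x hx hK
    exact h x hx (hT x hx hK)
  | snoc π β α ih =>
    intro M M' h hT
    refine ih _ _ ?_ hT
    rintro γ hγ ⟨y, hy, hyx⟩
    refine ⟨y, hy, fun x hx => ?_⟩
    apply h _ _ (hyx x hx)
    have h1 : CE (fun p => (y p, x p)) := hACL.2.2.1 β.C α.C y x hy hx
    exact hACL.2.2.1 _ (β.C × α.C) γ (fun p => (y p, x p)) hγ h1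

end PF
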