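import Pool.Agent.helper88.PF.Spec

/-! # Row pf:DNU -/

set_option autoImplicit false

namespace PF

noncomputable section

theorem DNU_bot {α : Po} {k : ℕ} {e : α → ℕ} (h : En α k e) : e ⊥ = 0 := by
  obtain ⟨x, hx⟩ := h.surj 0 (by positivity)
  have h1 : x ≤ ⊥ := by
    rw [h.le, hx]
    intro i hi
    exact absurd hi (Nat.not_lt_zero i)
  have h2 : x = ⊥ := le_bot_iff.1 h1
  rw [← h2, hx]

theorem DNU_cl {α β : Po} {a B : ℕ} {e₁ : α → ℕ} {e₂ : β → ℕ} (h1 : En α a e₁) (h2 : En β B e₂)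
    (D : Set (α × β)) (w : ℕ) (hw : ∀ u v, (u, v) ∈ D ↔ tb w (e₁ u * 2 ^ B + e₂ v))
    (θ : α → β → Prop) (θn : ℕ → ℕ → Prop) (hθ : ∀ u v, θ u v ↔ θn (e₁ u) (e₂ v)) :
    Cl D θ ↔ ClN a B w θn := by
  unfold Cl ClN
  have e0 : ((⊥ : α), (⊥ : β)) ∈ D ↔ tb w 0 := by
    rw [hw, DNU_bot h1, DNU_bot h2, zero_mul, zero_add]
  rw [e0]
  constructor
  · rintro ⟨p0, p1, p2⟩
    refine ⟨p0, ?_, ?_⟩
    · intro u hu u' hu' v hv huu' huv
      obtain ⟨x, rfl⟩ := h1.surj u hu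
      obtain ⟨x', rfl⟩ := h1.surj u' hu'
      obtain ⟨y, rfl⟩ := h2.surj v hv
      rw [← hw] at huv ⊢
      exact p1 x x' y ((h1.le x x').2 huu') huv
    · intro u hu v hv huv
      obtain ⟨x, rfl⟩ := h1.surj u hu
      obtain ⟨y, rfl⟩ := h2.surj v hv
      rw [← hw] at huv
      obtain ⟨y', hy1, hy2, hy3⟩ := p2 x y huv
      exact ⟨e₂ y', h2.lt y', (h2.le y y').1 hy1, (hw x y').1 hy2, (hθ x y').1 hy3⟩
  · rintro ⟨p0, p1, p2⟩
    refine ⟨p0, ?_, ?_⟩
    · intro x x' y hxx' hxy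
      rw [hw] at hxy ⊢
      exact p1 _ (h1.lt x) _ (h1.lt x') _ (h2.lt y) ((h1.le x x').1 hxx') hxy
    · intro x y hxy
      rw [hw] at hxy
      obtain ⟨v', hv1, hv2, hv3, hv4⟩ := p2 _ (h1.lt x) _ (h2.lt y) hxy
      obtain ⟨y', rfl⟩ := h2.surj v' hv1
      exact ⟨y', (h2.le y y').2 hv2, (hw x y').2 hv3, (hθ x y').2 hv4⟩

theorem DNU_one : En Po.one 0 (fun _ => 0) := by
  refine ⟨fun _ => by norm_num, fun x y _ => rfl, fun n hn => ⟨(), ?_⟩, fun x y => ?_⟩
  · have : n < 1 := by simpa using hn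
    omega
  · constructor
    · intro _ i hi
      exact absurd hi (Nat.not_lt_zero i)
    · intro _
      exact le_refl _

/-- the code of a truth value -/
def DNU_e2 (p : Prop) : ℕ := by
  classical
  exact if p then 1 else 0

theorem DNU_e2t {p : Prop} (h : p) : DNU_e2 p = 1 := by
  unfold DNU_e2
  exact if_pos h

theorem DNU_e2f {p : Prop} (h : ¬ p) : DNU_e2 p = 0 := by
  unfold DNU_e2
  exact if_neg h

theorem DNU_two : En Po.two 1 DNU_e2 := by
  refine ⟨fun p => ?_, fun p q h => ?_, fun n hn => ?_, fun p q => ?_⟩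
  · by_cases h : p
    · rw [DNU_e2t h]
      norm_num
    · rw [DNU_e2f h]
      norm_num
  · by_cases hp : p <;> by_cases hq : q
    · exact propext ⟨fun _ => hq, fun _ => hp⟩
    · rw [DNU_e2t hp, DNU_e2f hq] at h
      exact absurd h (by norm_num)
    · rw [DNU_e2f hp, DNU_e2t hq] at h
      exact absurd h (by norm_num)
    · exact propext ⟨fun h => absurd h hp, fun h => absurd h hq⟩
  · have hn' : n < 2 := by simpa using hn
    interval_cases n
    · exact ⟨False, DNU_e2f (fun h => h)⟩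
    · exact ⟨True, DNU_e2t trivial⟩
  · show (p → q) ↔ subN (DNU_e2 p) (DNU_e2 q)
    by_cases hp : p <;> by_cases hq : q
    · rw [DNU_e2t hp, DNU_e2t hq]
      exact ⟨fun _ i _ h => h, fun _ _ => hq⟩
    · rw [DNU_e2t hp, DNU_e2f hq]
      constructor
      · intro h
        exact absurd (h hp) hq
      · intro h
        have h1 := h 0 (by norm_num) (by unfold tb; norm_num)
        unfold tb at h1
        norm_num at h1
    · rw [DNU_e2f hp, DNU_e2t hq]
      exact ⟨fun _ i hi => absurd hi (Nat.not_lt_zero i), fun _ _ => hq⟩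
    · rw [DNU_e2f hp, DNU_e2f hq]
      exact ⟨fun _ i hi => absurd hi (Nat.not_lt_zero i), fun _ h => absurd h hp⟩

theorem DNU (hDEB : DEB_stmt) (hDEN : DEN_stmt) : DNU_stmt := by
  intro α a e₁ K Kn q
  induction q with
  | nil =>
    intro β B e₂ Θ Θn h1 h2 hK hΘ
    obtain ⟨e, he, hed⟩ := hDEN Po.one α β 0 a B (fun _ => 0) e₁ e₂ DNU_one h1 h2
    rw [zero_add] at he
    show (∃ D : Set (α × β), Cl D (fun u v => K u → Θ u v)) ↔
      ∃ w < 2 ^ 2 ^ (a + B), ClN a B w (fun u v => Kn u → Θn u v)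
    have hθ : ∀ (u : α) (v : β), (K u → Θ u v) ↔ (Kn (e₁ u) → Θn (e₁ u) (e₂ v)) := by
      intro u v
      rw [hK u]
      exact imp_congr_right fun _ => hΘ u v
    constructor
    · rintro ⟨D, hD⟩
      refine ⟨e ((), D), he.lt _, ?_⟩
      exact (DNU_cl h1 h2 D _ (hed () D).2 (fun u v => K u → Θ u v)
        (fun u v => Kn u → Θn u v) hθ).1 hD
    · rintro ⟨w, hw, hcl⟩
      obtain ⟨⟨t, D⟩, rfl⟩ := he.surj w hw
      exact ⟨D, (DNU_cl h1 h2 D _ (hed t D).2 (fun u v => K u → Θ u v)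
        (fun u v => Kn u → Θn u v) hθ).2 hcl⟩
  | cons b q ih =>
    intro β B e₂ Θ Θn h1 h2 hK hΘ
    cases b with
    | true =>
      obtain ⟨e, he, hed⟩ := hDEN Po.one Po.two β 0 1 B (fun _ => 0) DNU_e2 e₂ DNU_one DNU_two h2
      rw [zero_add] at he
      have h3 := ih (Po.one.prod (Po.two.prod β).set) (2 ^ (1 + B)) e
        (fun γ t => Cl t.2 (fun u v => Θ (γ, t.1, u) v))
        (fun c w => ClN 1 B w (fun u v => Θn (2 * c + u) v)) h1 he hK (by
        rintro γ ⟨t, D⟩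
        exact DNU_cl (α := Po.two) DNU_two h2 D _ (hed t D).2 (fun u v => Θ (γ, t, u) v)
          (fun u v => Θn (2 * cN e₁ q γ + u) v) (fun u v => hΘ (γ, t, u) v))
      exact h3
    | false =>
      obtain ⟨e, he, hed⟩ := hDEN Po.two Po.one β 1 0 B DNU_e2 (fun _ => 0) e₂ DNU_two DNU_one h2
      rw [zero_add] at he hed
      have h3 := ih (Po.two.prod (Po.one.prod β).set) (1 + 2 ^ B) e
        (fun γ t => Cl t.2 (fun u v => Θ (γ, t.1, u) v))
        (fun c w => ClN 0 B w (fun _ v => Θn (2 * c + w / 2 ^ 2 ^ B) v)) h1 he hK (by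
        rintro γ ⟨t, D⟩
        refine DNU_cl (α := Po.one) DNU_one h2 D _ (hed t D).2 (fun u v => Θ (γ, t, u) v)
          (fun _ v => Θn (2 * cN e₁ q γ + e (t, D) / 2 ^ 2 ^ B) v) (fun u v => ?_)
        rw [(hed t D).1]
        exact hΘ (γ, t, u) v)
      exact h3

end

end PF
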